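import Pool.Agent.Helper813.DC.A9
import Pool.Agent.Helper813.DC.B7
import Pool.Agent.Helper813.DC.Link
import Pool.Agent.Helper813.DC.RankN

/-!
# Assembly: the statement S11857 from the key lemma and from the theorem of Tutte
-/

set_option autoImplicit false

namespace BN124

/-- the characteristic polynomial at `2` -/
lemma chi_two {α : Type} [Fintype α] [DecidableEq α] (n : ℕ) (hn : 2 ≤ n) (r : Finset α → ℕ)
    (hχ : (∑ X : Finset α, (-1 : Polynomial ℤ) ^ X.card * Polynomial.X ^ (r Finset.univ - r X))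
        = ∏ i ∈ Finset.Icc 1 n, (Polynomial.X - Polynomial.C (i : ℤ))) :
    (∑ X : Finset α, (-1 : ℤ) ^ X.card * 2 ^ (r Finset.univ - r X)) = 0 := by
  have h := congrArg (Polynomial.eval 2) hχ
  rw [Polynomial.eval_finsetSum, Polynomial.eval_prod] at h
  have h2 : ∏ i ∈ Finset.Icc 1 n, Polynomial.eval 2 (Polynomial.X - Polynomial.C (i : ℤ)) = 0 := by
    apply Finset.prod_eq_zero (i := 2)
    · rw [Finset.mem_Icc]
      exact ⟨by norm_num, hn⟩
    · simp
  rw [h2] at h
  rw [← h]
  refine Finset.sum_congr rfl fun X _ => ?_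
  simp

/-- the case `n = 0` -/
lemma case_zero (α : Type) [Fintype α] [DecidableEq α] (M : Matroid α)
    (r : Finset α → ℕ) (hR : DC813.IsRk r) (h0 : r Finset.univ = 0) (hs : ∀ a, r {a} = 1)
    (hindep : ∀ I : Finset α, M.Indep (I : Set α) ↔ r I = I.card) :
    ∃ e : α ≃ {s : Sym2 (Fin (0 + 1)) // ¬ s.IsDiag},
        ∀ I : Set α, M.Indep I ↔
          (SimpleGraph.fromEdgeSet (Subtype.val '' (e '' I))).IsAcyclic := by
  have hα : IsEmpty α := by
    constructor
    intro a
    have h1 := hR.mono {a} Finset.univ (Finset.subset_univ _)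
    rw [hs, h0] at h1
    omega
  have hβ : IsEmpty {s : Sym2 (Fin (0 + 1)) // ¬ s.IsDiag} := by
    constructor
    rintro ⟨s, hs'⟩
    induction s using Sym2.ind with
    | _ x y =>
      apply hs'
      rw [Sym2.mk_isDiag_iff]
      omega
  refine ⟨Equiv.equivOfIsEmpty _ _, ?_⟩
  intro I
  have hI : I = ∅ := Set.eq_empty_of_isEmpty I
  subst hI
  have h1 : M.Indep (∅ : Set α) := by
    have h2 := (hindep ∅).2 (by rw [hR.empty]; rfl)
    rw [Finset.coe_empty] at h2
    exact h2
  constructor
  · intro _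
    rw [Set.image_empty, Set.image_empty, SimpleGraph.fromEdgeSet_empty]
    exact SimpleGraph.isAcyclic_bot
  · intro _
    exact h1

theorem main_of_key
    (KEY : ∀ (α : Type) [Fintype α] [DecidableEq α] (r : Finset α → ℕ), DC813.IsRk r →
      (∀ a, r {a} = 1) → 2 ≤ r Finset.univ → DC813.Round r Finset.univ →
      (∑ X : Finset α, (-1 : ℤ) ^ X.card * 2 ^ (r Finset.univ - r X)) = 0 →
      ∀ (L : Finset α) (a b c d : α), r L + 2 = r Finset.univ →
       r (insert a L) = r L + 1 → r (insert b L) = r L + 1 → r (insert c L) = r L + 1 →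
       r (insert d L) = r L + 1 →
       r (insert a (insert b L)) = r L + 2 → r (insert a (insert c L)) = r L + 2 →
       r (insert a (insert d L)) = r L + 2 →
       r (insert b (insert c L)) = r L + 2 → r (insert b (insert d L)) = r L + 2 →
       r (insert c (insert d L)) = r L + 2 → False)
    (KL3 : ∀ (α : Type) [Fintype α] [DecidableEq α] (r : Finset α → ℕ), DC813.IsRk r →
      (∀ (L : Finset α) (a b c d : α), r L + 2 = r Finset.univ →
       r (insert a L) = r L + 1 → r (insert b L) = r L + 1 → r (insert c L) = r L + 1 →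
       r (insert d L) = r L + 1 →
       r (insert a (insert b L)) = r L + 2 → r (insert a (insert c L)) = r L + 2 →
       r (insert a (insert d L)) = r L + 2 →
       r (insert b (insert c L)) = r L + 2 → r (insert b (insert d L)) = r L + 2 →
       r (insert c (insert d L)) = r L + 2 → False) →
      ∃ (m : ℕ) (v : α → (Fin m → ZMod 2)), DC813.rk v = r) :
    ∀ (α : Type) [Fintype α] [DecidableEq α] (M : Matroid α) (n : ℕ) (r : Finset α → ℕ),
      M.E = Set.univ →
      (∀ a b : α, M.Indep ({a, b} : Set α)) →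
      (∀ X : Finset α, IsGreatest
          {k : ℕ | ∃ I : Finset α, I ⊆ X ∧ M.Indep (↑I : Set α) ∧ I.card = k} (r X)) →
      (¬ ∃ F₁ F₂ : Finset α,
          (∀ e, e ∉ F₁ → r F₁ < r (insert e F₁)) ∧
          (∀ e, e ∉ F₂ → r F₂ < r (insert e F₂)) ∧
          F₁ ≠ Finset.univ ∧ F₂ ≠ Finset.univ ∧ F₁ ∪ F₂ = Finset.univ) →
      (∑ X : Finset α, (-1 : Polynomial ℤ) ^ X.card * Polynomial.X ^ (r Finset.univ - r X))
        = ∏ i ∈ Finset.Icc 1 n, (Polynomial.X - Polynomial.C (i : ℤ)) →
      ∃ e : α ≃ {s : Sym2 (Fin (n + 1)) // ¬ s.IsDiag},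
        ∀ I : Set α, M.Indep I ↔
          (SimpleGraph.fromEdgeSet (Subtype.val '' (e '' I))).IsAcyclic := by
  intro α _ _ M n r _ hs hr hsplit hχ
  have hR : DC813.IsRk r := DC813.Link.isRk_of_matroid M r hr
  have hindep := DC813.Link.indep_iff M r hr
  have hs' : ∀ a b : α, r {a, b} = ({a, b} : Finset α).card := by
    intro a b
    have h := hs a b
    rw [show ({a, b} : Set α) = (({a, b} : Finset α) : Set α) by simp] at h
    exact (hindep _).1 h
  have hs1 : ∀ a : α, r {a} = 1 := by
    intro a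
    have h := hs' a a
    simpa using h
  have hcard : r Finset.univ = n := DC813.RankN.rank_eq n r hR hs' hχ
  rcases Nat.eq_zero_or_pos n with hn0 | hn
  · subst hn0
    exact case_zero α M r hR hcard hs1 hindep
  have hrd : DC813.Round r Finset.univ := DC813.Link.round_of_nonsplit r hR hsplit
  obtain ⟨m, v, hrk⟩ := KL3 α r hR (by
    intro L a b c d hL
    have h2 : 2 ≤ n := by omega
    exact KEY α r hR hs1 (hcard ▸ h2) hrd (chi_two n h2 r hχ) L a b c d hL)
  have hcrit : DC813.Crit r := by
    have := DC813.A9.crit_of_rep n hn v (by rw [hrk]; exact hrd) (by rw [hrk]; exact hs')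
      (by rw [hrk]; exact hχ) (by rw [hrk]; exact hcard)
    rw [hrk] at this
    exact this
  obtain ⟨e, he⟩ := DC813.B7.T1 n hn r hR hs' hcrit hχ
  refine ⟨e, fun I => ?_⟩
  have hfin : I.Finite := Set.toFinite I
  lift I to Finset α using hfin
  rw [hindep, he]

end BN124
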