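import Pool.Agent.Helper813.DC.Defs

/-!
# Tutte: a matroid without colines in four hyperplanes is binary
-/

set_option autoImplicit false

namespace BN124

open Finset DC813

section KL3

variable {α : Type} [Fintype α] [DecidableEq α] {r : Finset α → ℕ}

lemma KL3_union_le (hr : IsRk r) (X Y : Finset α) : r (X ∪ Y) ≤ r X + Y.card := by
  induction Y using Finset.induction_on with
  | empty => simp
  | insert a s ha ih =>
    rw [Finset.union_insert, Finset.card_insert_of_notMem ha]
    have := hr.insert_le (X ∪ s) a
    omega

lemma KL3_le_card (hr : IsRk r) (X : Finset α) : r X ≤ X.card := by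
  have := KL3_union_le hr ∅ X
  rw [hr.empty, Finset.empty_union, zero_add] at this
  exact this

lemma KL3_insert (hr : IsRk r) (X : Finset α) (e : α) :
    r (insert e X) = r X ∨ r (insert e X) = r X + 1 := by
  have h1 := hr.insert_le X e
  have h2 := hr.mono X (insert e X) (Finset.subset_insert e X)
  omega

lemma KL3_closure (hr : IsRk r) (I X : Finset α) (h : ∀ y ∈ X, r (insert y I) = r I) :
    r (I ∪ X) = r I := by
  induction X using Finset.induction_on with
  | empty => simp
  | insert a s ha ih =>
    have h1 := ih (fun y hy => h y (Finset.mem_insert_of_mem hy))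
    have h2 := h a (Finset.mem_insert_self a s)
    have h3 := hr.submod (insert a I) (I ∪ s)
    have h4 : insert a I ∪ (I ∪ s) = I ∪ insert a s := by ext z; simp
    have h5 : r I ≤ r (insert a I ∩ (I ∪ s)) := hr.mono _ _ (by intro z hz; simp [hz])
    have h6 := hr.mono I (I ∪ insert a s) Finset.subset_union_left
    rw [h4] at h3
    omega

lemma KL3_sub (hr : IsRk r) {B S : Finset α} (hB : r B = B.card) (hS : S ⊆ B) :
    r S = S.card := by
  have h1 := KL3_union_le hr S (B \ S)
  have h2 := Finset.card_sdiff_add_card_eq_card hS
  have h3 := KL3_le_card hr S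
  rw [Finset.union_sdiff_of_subset hS] at h1
  omega

lemma KL3_ext (hr : IsRk r) (X : Finset α) : ∀ (n : ℕ) (I : Finset α), X.card - I.card = n →
    I ⊆ X → r I = I.card → ∃ J, I ⊆ J ∧ J ⊆ X ∧ r J = J.card ∧ r J = r X := by
  intro n
  induction n with
  | zero =>
    intro I hn hI hr'
    have h1 := Finset.card_le_card hI
    have h2 : I = X := Finset.eq_of_subset_of_card_le hI (by omega)
    exact ⟨I, subset_rfl, hI, hr', by rw [h2]⟩
  | succ n ih =>
    intro I hn hI hr'
    by_cases hc : ∀ y ∈ X, r (insert y I) = r I
    · refine ⟨I, subset_rfl, hI, hr', ?_⟩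
      have h1 := KL3_closure hr I X hc
      rw [Finset.union_eq_right.2 hI] at h1
      exact h1.symm
    · push Not at hc
      obtain ⟨y, hy, hne⟩ := hc
      have h1 := (KL3_insert hr I y).resolve_left hne
      have h2 : y ∉ I := fun h => hne (by rw [Finset.insert_eq_of_mem h])
      have h3 : (insert y I).card = I.card + 1 := Finset.card_insert_of_notMem h2
      obtain ⟨J, hJ1, hJ2, hJ3, hJ4⟩ := ih (insert y I) (by omega)
        (Finset.insert_subset hy hI) (by omega)
      exact ⟨J, (Finset.subset_insert y I).trans hJ1, hJ2, hJ3, hJ4⟩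

/-- the hypothesis on colines -/
def KL3_H (r : Finset α → ℕ) : Prop :=
  ∀ (L : Finset α) (a b c d : α), r L + 2 = r Finset.univ →
     r (insert a L) = r L + 1 → r (insert b L) = r L + 1 → r (insert c L) = r L + 1 →
     r (insert d L) = r L + 1 →
     r (insert a (insert b L)) = r L + 2 → r (insert a (insert c L)) = r L + 2 →
     r (insert a (insert d L)) = r L + 2 →
     r (insert b (insert c L)) = r L + 2 → r (insert b (insert d L)) = r L + 2 →
     r (insert c (insert d L)) = r L + 2 → False

lemma KL3_nl (hr : IsRk r) {L : Finset α} {u w : α} (h : r (insert u (insert w L)) = r L + 2) :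
    r (insert u L) = r L + 1 ∧ r (insert w L) = r L + 1 := by
  have h1 := hr.insert_le (insert w L) u
  have h2 := hr.insert_le L w
  have h3 := hr.insert_le (insert u L) w
  have h4 := hr.insert_le L u
  rw [Finset.insert_comm] at h3
  omega

lemma KL3_tr (hr : IsRk r) {L : Finset α} {u w z : α} (hL : r L + 2 = r Finset.univ)
    (hw : r (insert w L) = r L + 1) (h1 : r (insert u (insert w L)) ≠ r L + 2)
    (h2 : r (insert w (insert z L)) ≠ r L + 2) : r (insert u (insert z L)) ≠ r L + 2 := by
  rw [Finset.insert_comm] at h2
  have h3 := hr.insert_le (insert w L) u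
  have h4 := hr.insert_le (insert w L) z
  have h5 := hr.submod (insert u (insert w L)) (insert z (insert w L))
  have h6 : r (insert w L) ≤ r (insert u (insert w L) ∩ insert z (insert w L)) :=
    hr.mono _ _ (by intro t ht; simp only [mem_inter, mem_insert] at *; tauto)
  have h7 : r (insert u (insert z L)) ≤ r (insert u (insert w L) ∪ insert z (insert w L)) :=
    hr.mono _ _ (by intro t ht; simp only [mem_union, mem_insert] at *; tauto)
  omega

lemma KL3_loc (hr : IsRk r) (h : KL3_H r) {L : Finset α} {b c x y : α}
    (hL : r L + 2 = r Finset.univ)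
    (hbc : r (insert b (insert c L)) = r L + 2) (hxc : r (insert x (insert c L)) = r L + 2) :
    (r (insert y (insert x L)) = r L + 2 ↔
      ¬ (r (insert y (insert b L)) = r L + 2 ↔
        (r (insert x (insert b L)) = r L + 2 ∧ r (insert y (insert c L)) = r L + 2))) := by
  have nb := (KL3_nl hr hbc).1
  have nc := (KL3_nl hr hbc).2
  have nx := (KL3_nl hr hxc).1
  by_cases hy : r (insert y L) = r L + 1
  · by_cases hxb : r (insert x (insert b L)) = r L + 2
    · -- three classes
      have e1 : r (insert b (insert x L)) = r L + 2 := by rw [Finset.insert_comm]; exact hxb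
      have e2 : r (insert c (insert x L)) = r L + 2 := by rw [Finset.insert_comm]; exact hxc
      have e3 : r (insert c (insert b L)) = r L + 2 := by rw [Finset.insert_comm]; exact hbc
      by_cases h1 : r (insert y (insert b L)) = r L + 2
      · by_cases h2 : r (insert y (insert c L)) = r L + 2
        · by_cases h3 : r (insert y (insert x L)) = r L + 2
          · exact (h L y b c x hL hy nb nc nx h1 h2 h3 hbc e1 e2).elim
          · simp only [h1, h2, h3, hxb]; tauto
        · have h3 : r (insert y (insert x L)) = r L + 2 := by
            by_contra h3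
            refine KL3_tr hr hL hy (u := x) (z := c) ?_ h2 hxc
            rw [Finset.insert_comm]; exact h3
          simp only [h1, h2, h3, hxb]; tauto
      · have h2 : r (insert y (insert c L)) = r L + 2 := by
          by_contra h2
          refine KL3_tr hr hL hy (u := b) (z := c) ?_ h2 hbc
          rw [Finset.insert_comm]; exact h1
        have h3 : r (insert y (insert x L)) = r L + 2 := by
          by_contra h3
          refine KL3_tr hr hL hy (u := b) (z := x) ?_ h3 e1
          rw [Finset.insert_comm]; exact h1
        simp only [h1, h2, h3, hxb]; tauto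
    · have hbx : r (insert b (insert x L)) ≠ r L + 2 := by rw [Finset.insert_comm]; exact hxb
      have h4 : r (insert y (insert x L)) = r L + 2 ↔ r (insert y (insert b L)) = r L + 2 := by
        constructor
        · intro h1
          by_contra h2
          exact KL3_tr hr hL nb h2 hbx h1
        · intro h1
          by_contra h2
          exact KL3_tr hr hL nx h2 hxb h1
      rw [h4]
      tauto
  · have f : ∀ z, r (insert y (insert z L)) ≠ r L + 2 := fun z hz => hy (KL3_nl hr hz).1
    have f1 := f x
    have f2 := f b
    have f3 := f c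
    tauto

/-- coordinates with respect to a basis -/
def KL3_co (r : Finset α → ℕ) (B : Finset α) (y b : α) : ZMod 2 :=
  if r (insert y (B.erase b)) = r Finset.univ then 1 else 0

lemma KL3_pivot (hr : IsRk r) (h : KL3_H r) {B : Finset α} (hB : r B = B.card)
    (hBR : r B = r Finset.univ) {b c x y : α} (hb : b ∈ B) (hc : c ∈ B) (hcb : c ≠ b)
    (hx : x ∉ B) (hxb : r (insert x (B.erase b)) = r Finset.univ) :
    KL3_co r (insert x (B.erase b)) y c = KL3_co r B y c - KL3_co r B x c * KL3_co r B y b := by
  set L := (B.erase b).erase c with hLdef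
  have e1 : B.erase b = insert c L := by
    rw [hLdef, Finset.insert_erase (Finset.mem_erase.2 ⟨hcb, hc⟩)]
  have e2 : B.erase c = insert b L := by
    rw [hLdef, Finset.erase_right_comm, Finset.insert_erase (Finset.mem_erase.2 ⟨hcb.symm, hb⟩)]
  have hxc : x ≠ c := by rintro rfl; exact hx hc
  have e3 : (insert x (B.erase b)).erase c = insert x L := by
    rw [Finset.erase_insert_of_ne hxc]
  have hLB : L ⊆ B := (Finset.erase_subset _ _).trans (Finset.erase_subset _ _)
  have hLc : L.card + 2 = B.card := by
    have h1 := Finset.card_erase_add_one hb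
    have h2 := Finset.card_erase_add_one (Finset.mem_erase.2 ⟨hcb, hc⟩ : c ∈ B.erase b)
    rw [← hLdef] at h2
    omega
  have hLr := KL3_sub hr hB hLB
  have hL : r L + 2 = r Finset.univ := by omega
  have hbc : r (insert b (insert c L)) = r L + 2 := by
    rw [← e1, Finset.insert_erase hb]; omega
  have hxc' : r (insert x (insert c L)) = r L + 2 := by rw [← e1]; omega
  have key := KL3_loc hr h (y := y) hL hbc hxc'
  unfold KL3_co
  rw [e3, e2, e1, ← hL]
  by_cases h1 : r (insert y (insert b L)) = r L + 2 <;>
  by_cases h2 : r (insert x (insert b L)) = r L + 2 <;>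
  by_cases h3 : r (insert y (insert c L)) = r L + 2 <;>
  by_cases h4 : r (insert y (insert x L)) = r L + 2 <;>
  simp only [h1, h2, h3, h4, true_and, and_true, false_and, and_false, iff_true, iff_false,
    true_iff, false_iff, not_true, not_false_iff] at key <;>
  simp [h1, h2, h3, h4]

/-- the configuration `v` has the right coordinates with respect to the basis `B` -/
def KL3_Rep (r : Finset α → ℕ) {m : ℕ} (v : α → (Fin m → ZMod 2)) (B : Finset α) : Prop :=
  (∀ y, v y = ∑ b ∈ B, KL3_co r B y b • v b) ∧
    Submodule.span (ZMod 2) (v '' (B : Set α)) = ⊤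

lemma KL3_step (hr : IsRk r) (h : KL3_H r) {m : ℕ} {v : α → (Fin m → ZMod 2)} {B : Finset α}
    (hB : r B = B.card) (hBR : r B = r Finset.univ) {b x : α} (hb : b ∈ B) (hx : x ∉ B)
    (hxb : r (insert x (B.erase b)) = r Finset.univ) (hv : KL3_Rep r v B) :
    KL3_Rep r v (insert x (B.erase b)) := by
  obtain ⟨hv1, hv2⟩ := hv
  have hxe : x ∉ B.erase b := fun h' => hx (Finset.mem_of_mem_erase h')
  have hco1 : KL3_co r B x b = 1 := by unfold KL3_co; rw [if_pos hxb]
  have hsum : ∀ y, v y = KL3_co r B y b • v b + ∑ c ∈ B.erase b, KL3_co r B y c • v c := by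
    intro y
    rw [hv1 y, Finset.add_sum_erase B (fun c => KL3_co r B y c • v c) hb]
  have hx1 := hsum x
  rw [hco1, one_smul] at hx1
  constructor
  · intro y
    rw [Finset.sum_insert hxe]
    have e1 : KL3_co r (insert x (B.erase b)) y x = KL3_co r B y b := by
      unfold KL3_co
      rw [Finset.erase_insert hxe]
    have e2 : ∑ c ∈ B.erase b, KL3_co r (insert x (B.erase b)) y c • v c =
        ∑ c ∈ B.erase b, KL3_co r B y c • v c -
          KL3_co r B y b • ∑ c ∈ B.erase b, KL3_co r B x c • v c := by
      rw [Finset.smul_sum, ← Finset.sum_sub_distrib]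
      refine Finset.sum_congr rfl fun c hc => ?_
      rw [KL3_pivot hr h hB hBR hb (Finset.mem_of_mem_erase hc) (Finset.ne_of_mem_erase hc) hx hxb,
        sub_smul, smul_smul, mul_comm]
    rw [e1, e2, hx1, hsum y, smul_add]
    abel
  · rw [eq_top_iff, ← hv2, Submodule.span_le]
    rintro _ ⟨c, hc, rfl⟩
    rw [SetLike.mem_coe]
    have hmem : ∀ d, d ∈ B.erase b → v d ∈
        Submodule.span (ZMod 2) (v '' ((insert x (B.erase b) : Finset α) : Set α)) := fun d hd =>
      Submodule.subset_span ⟨d, Finset.mem_coe.2 (Finset.mem_insert_of_mem hd), rfl⟩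
    by_cases hcb : c = b
    · subst hcb
      have h1 : v c = v x - ∑ d ∈ B.erase c, KL3_co r B x d • v d := by rw [hx1]; abel
      rw [h1]
      refine Submodule.sub_mem _ (Submodule.subset_span ⟨x, by simp, rfl⟩) ?_
      exact Submodule.sum_mem _ fun d hd => Submodule.smul_mem _ _ (hmem d hd)
    · exact hmem c (Finset.mem_erase.2 ⟨hcb, hc⟩)

lemma KL3_exch (hr : IsRk r) {B B' : Finset α} (hB : r B = B.card) (hBR : r B = r Finset.univ)
    (hB' : r B' = B'.card) {x : α} (hx : x ∈ B') (hxB : x ∉ B) :
    ∃ b ∈ B, b ∉ B' ∧ r (insert x (B.erase b)) = r Finset.univ := by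
  by_contra hcon
  push Not at hcon
  have key : ∀ D : Finset α, D ⊆ B \ B' → r (insert x (B \ D)) = (B \ D).card := by
    intro D
    induction D using Finset.induction_on with
    | empty =>
      intro _
      rw [Finset.sdiff_empty]
      have h1 := hr.mono _ _ (Finset.subset_univ (insert x B))
      have h2 := hr.mono _ _ (Finset.subset_insert x B)
      omega
    | insert b D hbD ih =>
      intro hD
      have hbm := hD (Finset.mem_insert_self b D)
      rw [Finset.mem_sdiff] at hbm
      have h1 := ih ((Finset.subset_insert b D).trans hD)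
      have h2 := hcon b hbm.1 hbm.2
      have h3 := hr.submod (insert x (B \ D)) (insert x (B.erase b))
      have h4 : insert x (B \ D) ∪ insert x (B.erase b) = insert x B := by
        ext z
        simp only [mem_union, mem_insert, mem_sdiff, mem_erase]
        constructor
        · tauto
        · rintro (h | h)
          · tauto
          · by_cases hz : z = b
            · subst hz; tauto
            · tauto
      have h5 : insert x (B \ D) ∩ insert x (B.erase b) = insert x (B \ insert b D) := by
        ext z
        simp only [mem_inter, mem_insert, mem_sdiff, mem_erase]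
        tauto
      have h6 : (B \ insert b D).card + 1 = (B \ D).card := by
        have : B \ insert b D = (B \ D).erase b := by
          ext z
          simp only [mem_insert, mem_sdiff, mem_erase]
          tauto
        rw [this, Finset.card_erase_add_one (by simp [hbm.1, hbD])]
      have h7 := hr.mono _ _ (Finset.subset_insert x B)
      have h8 := hr.mono _ _ (Finset.subset_univ (insert x (B.erase b)))
      have h9 := hr.mono _ _ (Finset.subset_insert x (B \ insert b D))
      have h10 := KL3_sub hr hB (Finset.sdiff_subset : B \ insert b D ⊆ B)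
      rw [h4, h5] at h3
      omega
  have h1 := key (B \ B') subset_rfl
  have h2 : B \ (B \ B') = B ∩ B' := by
    ext z; simp only [mem_inter, mem_sdiff]; tauto
  rw [h2] at h1
  have h3 : insert x (B ∩ B') ⊆ B' := Finset.insert_subset hx Finset.inter_subset_right
  have h4 := KL3_sub hr hB' h3
  rw [Finset.card_insert_of_notMem (by simp [hxB])] at h4
  omega

lemma KL3_all (hr : IsRk r) (h : KL3_H r) {m : ℕ} {v : α → (Fin m → ZMod 2)} {B' : Finset α}
    (hB' : r B' = B'.card) (hBR' : r B' = r Finset.univ) : ∀ (n : ℕ) (B : Finset α),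
    (B' \ B).card = n → r B = B.card → r B = r Finset.univ → KL3_Rep r v B → KL3_Rep r v B' := by
  intro n
  induction n with
  | zero =>
    intro B hn hB hBR hv
    rw [Finset.card_eq_zero, Finset.sdiff_eq_empty_iff_subset] at hn
    have : B' = B := Finset.eq_of_subset_of_card_le hn (by omega)
    rw [this]; exact hv
  | succ n ih =>
    intro B hn hB hBR hv
    obtain ⟨x, hx⟩ : (B' \ B).Nonempty := by
      rw [← Finset.card_pos]; omega
    rw [Finset.mem_sdiff] at hx
    obtain ⟨b, hb, hbB', hxb⟩ := KL3_exch hr hB hBR hB' hx.1 hx.2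
    have hxe : x ∉ B.erase b := fun h' => hx.2 (Finset.mem_of_mem_erase h')
    have hcard : (insert x (B.erase b)).card = B.card := by
      rw [Finset.card_insert_of_notMem hxe, Finset.card_erase_add_one hb]
    refine ih (insert x (B.erase b)) ?_ (by omega) hxb (KL3_step hr h hB hBR hb hx.2 hxb hv)
    have h1 : B' \ insert x (B.erase b) = (B' \ B).erase x := by
      ext z
      simp only [mem_insert, mem_sdiff, mem_erase]
      constructor
      · rintro ⟨h1, h2⟩
        push Not at h2
        refine ⟨h2.1, h1, fun h3 => ?_⟩
        by_cases hz : z = b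
        · subst hz; exact hbB' h1
        · exact h2.2 hz h3
      · rintro ⟨h1, h2, h3⟩
        refine ⟨h2, ?_⟩
        rintro (h4 | ⟨_, h4⟩)
        · exact h1 h4
        · exact h3 h4
    rw [h1]
    have h2 := Finset.card_erase_add_one (Finset.mem_sdiff.2 hx : x ∈ B' \ B)
    omega

theorem binary_of_colines {α : Type} [Fintype α] [DecidableEq α] (r : Finset α → ℕ)
    (hr : DC813.IsRk r)
    (h : ∀ (L : Finset α) (a b c d : α), r L + 2 = r Finset.univ →
     r (insert a L) = r L + 1 → r (insert b L) = r L + 1 → r (insert c L) = r L + 1 →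
     r (insert d L) = r L + 1 →
     r (insert a (insert b L)) = r L + 2 → r (insert a (insert c L)) = r L + 2 →
     r (insert a (insert d L)) = r L + 2 →
     r (insert b (insert c L)) = r L + 2 → r (insert b (insert d L)) = r L + 2 →
     r (insert c (insert d L)) = r L + 2 → False) :
    ∃ (m : ℕ) (v : α → (Fin m → ZMod 2)), DC813.rk v = r := by
  obtain ⟨B0, -, -, hB0, hBR0⟩ := KL3_ext hr Finset.univ _ ∅ rfl (Finset.empty_subset _)
    (by rw [hr.empty]; rfl)
  let v : α → (Fin B0.card → ZMod 2) := fun y i => KL3_co r B0 y (B0.equivFin.symm i : B0)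
  have hv0 : ∀ b ∈ B0, ∀ i, v b i = if b = (B0.equivFin.symm i : B0) then 1 else 0 := by
    intro b hb i
    show KL3_co r B0 b (B0.equivFin.symm i : B0) = _
    have hi : ((B0.equivFin.symm i : B0) : α) ∈ B0 := (B0.equivFin.symm i).2
    unfold KL3_co
    by_cases hbi : b = (B0.equivFin.symm i : B0)
    · rw [if_pos hbi, if_pos]
      rw [← hbi, Finset.insert_erase hb, hBR0]
    · rw [if_neg hbi, if_neg]
      rw [Finset.insert_eq_of_mem (Finset.mem_erase.2 ⟨hbi, hb⟩)]
      have h1 := KL3_sub hr hB0 (Finset.erase_subset ((B0.equivFin.symm i : B0) : α) B0)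
      have h2 := Finset.card_erase_add_one hi
      omega
  have hrep0 : KL3_Rep r v B0 := by
    constructor
    · intro y
      funext i
      rw [Finset.sum_apply, Finset.sum_eq_single ((B0.equivFin.symm i : B0) : α)]
      · rw [Pi.smul_apply, hv0 _ (B0.equivFin.symm i).2, if_pos rfl, smul_eq_mul, mul_one]
      · intro b hb hne
        rw [Pi.smul_apply, hv0 b hb, if_neg hne, smul_zero]
      · intro hn
        exact (hn (B0.equivFin.symm i).2).elim
    · rw [eq_top_iff]
      intro w _
      have hw : w = ∑ i, w i • v (B0.equivFin.symm i : B0) := by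
        funext j
        rw [Finset.sum_apply, Finset.sum_eq_single j]
        · rw [Pi.smul_apply, hv0 _ (B0.equivFin.symm j).2, if_pos rfl, smul_eq_mul, mul_one]
        · intro i _ hne
          rw [Pi.smul_apply, hv0 _ (B0.equivFin.symm i).2, if_neg, smul_zero]
          intro heq
          exact hne (B0.equivFin.symm.injective (Subtype.ext heq))
        · intro hn; exact (hn (Finset.mem_univ _)).elim
      rw [hw]
      refine Submodule.sum_mem _ fun i _ => Submodule.smul_mem _ _ (Submodule.subset_span ?_)
      exact ⟨_, (B0.equivFin.symm i).2, rfl⟩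
  refine ⟨B0.card, v, ?_⟩
  funext X
  obtain ⟨I, -, hIX, hI, hIr⟩ := KL3_ext hr X _ ∅ rfl (Finset.empty_subset _)
    (by rw [hr.empty]; rfl)
  obtain ⟨B, hIB, -, hB, hBR⟩ := KL3_ext hr Finset.univ _ I rfl (Finset.subset_univ _) hI
  obtain ⟨hrep1, hrep2⟩ := KL3_all hr h hB hBR _ B0 rfl hB0 hBR0 hrep0
  have hli : LinearIndependent (ZMod 2) (fun b : B => v b) := by
    apply linearIndependent_of_top_le_span_of_card_eq_finrank
    · have : Set.range (fun b : B => v b) = v '' (B : Set α) := by
        ext w; simp
      rw [this, hrep2]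
    · rw [Fintype.card_coe, Module.finrank_fin_fun]
      omega
  have hliI : LinearIndependent (ZMod 2) (fun b : I => v b) :=
    hli.comp (fun b : I => (⟨b.1, hIB b.2⟩ : B)) (by
      intro a b hab
      have := congrArg Subtype.val hab
      exact Subtype.ext this)
  have hspan : Submodule.span (ZMod 2) (v '' (X : Set α)) =
      Submodule.span (ZMod 2) (v '' (I : Set α)) := by
    apply le_antisymm
    · rw [Submodule.span_le]
      rintro _ ⟨y, hy, rfl⟩
      rw [SetLike.mem_coe, hrep1 y]
      refine Submodule.sum_mem _ fun b hb => ?_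
      by_cases hbI : b ∈ I
      · exact Submodule.smul_mem _ _ (Submodule.subset_span ⟨b, hbI, rfl⟩)
      · have h0 : KL3_co r B y b = 0 := by
          unfold KL3_co
          rw [if_neg]
          intro h1
          have h2 : I ⊆ B.erase b := fun z hz =>
            Finset.mem_erase.2 ⟨fun h => hbI (h ▸ hz), hIB hz⟩
          have h3 := KL3_sub hr hB (Finset.erase_subset b B)
          have h4 := Finset.card_erase_add_one hb
          have h5 := hr.submod (B.erase b) (insert y I)
          have h6 : r I ≤ r (B.erase b ∩ insert y I) :=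
            hr.mono _ _ (Finset.subset_inter h2 (Finset.subset_insert y I))
          have h7 : r (insert y I) ≤ r X := hr.mono _ _ (Finset.insert_subset hy hIX)
          have h8 : r (insert y (B.erase b)) ≤ r (B.erase b ∪ insert y I) :=
            hr.mono _ _ (by intro z hz; simp only [mem_union, mem_insert] at *; tauto)
          omega
        rw [h0, zero_smul]
        exact Submodule.zero_mem _
    · apply Submodule.span_mono
      exact Set.image_mono (by exact_mod_cast hIX)
  unfold DC813.rk
  rw [hspan]
  have h1 : v '' (I : Set α) = Set.range (fun b : I => v b) := by ext w; simp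
  rw [h1, finrank_span_eq_card hliI, Fintype.card_coe]
  omega

end KL3

end BN124
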